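import Mathlib
import Pool.Agent.Q222.MD.Main

/-!
# The max-distortion of every deterministic matching mechanism is at least `⌊√n⌋`

Definitions in `Pool.Agent.Q222.MD.Defs`: `Profile n` (each of the `n` agents has a strict total
order of the `n` items), `Consistent σ d` (the pseudometric `d` on agents and items is consistent
with the profile), `Mechanism` (a perfect matching for each profile), `maxCost`, `opt`,
`DistLE f n α` (the max-distortion of `f` for `n` agents is at most `α`).
-/

set_option autoImplicit false

namespace Pool.Agent.Results.MP_b944bf_lc.SqrtLowerBound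

open Q222.MD

/-- No deterministic mechanism has bounded max-distortion; the max-distortion for `n` agents is
at least the integer part of the square root of `n`. -/
theorem result :
    (¬ ∃ (f : Mechanism) (C : ℝ), ∀ n : ℕ, 1 ≤ n → DistLE f n C) ∧
    ∀ (f : Mechanism) (n : ℕ) (α : ℝ), 1 ≤ n → DistLE f n α → (Nat.sqrt n : ℝ) ≤ α := by
  have h : ∀ (f : Mechanism) (n : ℕ) (α : ℝ), 1 ≤ n → DistLE f n α → (Nat.sqrt n : ℝ) ≤ α :=
    fun f n α hn hd => lower_bound f hn hd
  refine ⟨?_, h⟩
  rintro ⟨f, C, hC⟩
  obtain ⟨k, hk⟩ := exists_nat_gt C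
  have h1 := h f ((k + 1) * (k + 1)) C (Nat.mul_pos (by omega) (by omega))
    (hC _ (Nat.mul_pos (by omega) (by omega)))
  rw [Nat.sqrt_eq] at h1
  push_cast at h1
  linarith

end Pool.Agent.Results.MP_b944bf_lc.SqrtLowerBound
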